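import Pool.Agent.W47.TM.Defs

/-!
# S_T4: the determinant of Hermite's system
-/

set_option autoImplicit false

namespace Pool.Agent.W177.TM

open Finset Polynomial Pool.Agent.W47.TM

lemma natDegree_A (n N h k : ℕ) (_hN : 1 ≤ N) : (A n N h k).natDegree ≤ N := by
  unfold A
  refine natDegree_sum_le_of_forall_le _ _ fun j hj => ?_
  refine (natDegree_C_mul_X_pow_le _ _).trans ?_
  rw [mem_range] at hj
  unfold ex at hj
  split_ifs at hj <;> omega

lemma coeff_A (n N h k j : ℕ) :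
    (A n N h k).coeff j = if j < ex N h k then co n N h k j / (j.factorial : ℚ) else 0 := by
  unfold A
  rw [finsetSum_coeff]
  simp only [coeff_C_mul_X_pow]
  rw [Finset.sum_ite_eq]
  simp only [mem_range]

lemma coeff_A_off (n N h k : ℕ) (hk : k ≠ h) : (A n N h k).coeff N = 0 := by
  rw [coeff_A, if_neg]
  unfold ex
  rw [if_neg hk]
  omega

lemma coeff_A_diag (n N h : ℕ) : (A n N h h).coeff N ≠ 0 := by
  have he : ex N h h = N + 1 := by
    unfold ex
    rw [if_pos rfl]
  rw [coeff_A, he, if_pos (Nat.lt_succ_self N)]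
  refine div_ne_zero ?_ (by positivity)
  unfold co ser
  rw [he]
  have e0 : N + 1 - 1 - N = 0 := by omega
  rw [e0, PowerSeries.coeff_zero_eq_constantCoeff_apply, map_prod]
  refine Finset.prod_ne_zero_iff.2 fun l hl => ?_
  rw [map_pow]
  refine pow_ne_zero _ ?_
  rw [PowerSeries.constantCoeff_inv]
  refine inv_ne_zero ?_
  rw [map_add, PowerSeries.constantCoeff_C, PowerSeries.constantCoeff_X, add_zero]
  refine sub_ne_zero.2 fun h1 => ?_
  have h2 : h = l := by exact_mod_cast h1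
  exact (Finset.mem_erase.1 hl).1 h2.symm

/-- the matrix of the system -/
noncomputable def mat (n N : ℕ) : Matrix (Fin (n + 1)) (Fin (n + 1)) ℚ[X] :=
  Matrix.of fun h k => A n N h k

lemma natDegree_det (n N : ℕ) (hN : 1 ≤ N) : (mat n N).det.natDegree ≤ (n + 1) * N := by
  rw [Matrix.det_apply]
  refine natDegree_sum_le_of_forall_le _ _ fun σ _ => ?_
  refine (natDegree_smul_le _ _).trans ?_
  refine (natDegree_prod_le _ _).trans ?_
  refine (Finset.sum_le_sum fun i _ => natDegree_A n N _ _ hN).trans ?_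
  rw [Finset.sum_const, Finset.card_univ, Fintype.card_fin, smul_eq_mul]

lemma coeff_det (n N : ℕ) (hN : 1 ≤ N) : (mat n N).det.coeff ((n + 1) * N) ≠ 0 := by
  have h1 : (mat n N).det.coeff ((n + 1) * N) =
      (Matrix.of fun h k : Fin (n + 1) => (mat n N h k).coeff N).det := by
    rw [Matrix.det_apply, Matrix.det_apply, finsetSum_coeff]
    refine Finset.sum_congr rfl fun σ _ => ?_
    rw [coeff_smul]
    congr 1
    have h2 := coeff_prod_of_natDegree_le (s := univ)
      (f := fun i : Fin (n + 1) => mat n N (σ i) i) N (fun i _ => natDegree_A n N _ _ hN)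
    rw [Finset.card_univ, Fintype.card_fin] at h2
    exact h2
  have h2 : (Matrix.of fun h k : Fin (n + 1) => (mat n N h k).coeff N) =
      Matrix.diagonal fun h : Fin (n + 1) => (A n N h h).coeff N := by
    ext h k
    rw [Matrix.of_apply]
    by_cases hk : h = k
    · subst hk
      rw [Matrix.diagonal_apply_eq]
      rfl
    · rw [Matrix.diagonal_apply_ne _ hk]
      exact coeff_A_off n N h k fun h3 => hk (Fin.ext h3.symm)
  rw [h1, h2, Matrix.det_diagonal]
  exact Finset.prod_ne_zero_iff.2 fun h _ => coeff_A_diag n N h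

/-- the power series of `exp (k X)` -/
noncomputable def ev (k : ℕ) : PowerSeries ℚ := PowerSeries.mk fun m => (k : ℚ) ^ m / (m.factorial : ℚ)

lemma ev_zero : ev 0 = 1 := by
  ext m
  unfold ev
  rw [PowerSeries.coeff_mk, PowerSeries.coeff_one]
  rcases Nat.eq_zero_or_pos m with hm | hm
  · subst hm
    simp
  · rw [if_neg (by omega), Nat.cast_zero, zero_pow (by omega), zero_div]

lemma coeff_term (n N h k m : ℕ) :
    PowerSeries.coeff m (ev k * ((A n N h k : ℚ[X]) : PowerSeries ℚ)) =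
      ∑ j ∈ range (ex N h k),
        if j ≤ m then (co n N h k j / (j.factorial : ℚ)) *
          ((k : ℚ) ^ (m - j) / ((m - j).factorial : ℚ)) else 0 := by
  have h1 : ((A n N h k : ℚ[X]) : PowerSeries ℚ) = ∑ j ∈ range (ex N h k),
      PowerSeries.C (co n N h k j / (j.factorial : ℚ)) * PowerSeries.X ^ j := by
    unfold A
    rw [← Polynomial.coeToPowerSeries.ringHom_apply, map_sum]
    refine Finset.sum_congr rfl fun j _ => ?_
    rw [Polynomial.coeToPowerSeries.ringHom_apply, Polynomial.coe_mul, Polynomial.coe_C,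
      Polynomial.coe_pow, Polynomial.coe_X]
  rw [h1, Finset.mul_sum, map_sum]
  refine Finset.sum_congr rfl fun j _ => ?_
  have e : ev k * (PowerSeries.C (co n N h k j / (j.factorial : ℚ)) * PowerSeries.X ^ j) =
      PowerSeries.C (co n N h k j / (j.factorial : ℚ)) * (PowerSeries.X ^ j * ev k) := by ring
  rw [e, PowerSeries.coeff_C_mul, PowerSeries.coeff_X_pow_mul']
  by_cases hj : j ≤ m
  · rw [if_pos hj, if_pos hj]
    unfold ev
    rw [PowerSeries.coeff_mk]
  · rw [if_neg hj, if_neg hj, mul_zero]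

lemma dvd_det (hR : S_REM) (n N : ℕ) (hN : 1 ≤ N) :
    ∀ m < (n + 1) * N, (mat n N).det.coeff m = 0 := by
  obtain ⟨a, ha⟩ : ∃ a : Matrix (Fin (n + 1)) (Fin (n + 1)) (PowerSeries ℚ),
    a = (Polynomial.coeToPowerSeries.ringHom (R := ℚ)).mapMatrix (mat n N) := ⟨_, rfl⟩
  have hdet : a.det = (((mat n N).det : ℚ[X]) : PowerSeries ℚ) := by
    rw [ha, ← RingHom.map_det]
    rfl
  have haij : ∀ h k, a h k = ((A n N (h : ℕ) (k : ℕ) : ℚ[X]) : PowerSeries ℚ) := by
    intro h k
    rw [ha]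
    rfl
  have h1 := Matrix.det_updateCol_sum a 0 (fun k : Fin (n + 1) => ev (k : ℕ))
  have e0 : ev ((0 : Fin (n + 1)) : ℕ) = 1 := by
    rw [Fin.val_zero]
    exact ev_zero
  rw [e0, one_smul, hdet] at h1
  have h2 : ∀ h : Fin (n + 1), ∃ w : PowerSeries ℚ,
      ∑ k : Fin (n + 1), ev (k : ℕ) • a h k = PowerSeries.X ^ ((n + 1) * N) * w := by
    intro h
    refine PowerSeries.X_pow_dvd_iff.2 fun m hm => ?_
    have h3 := (hR n N h hN (by have := h.isLt; omega)).1 m hm
    rw [← h3]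
    unfold rc
    rw [map_sum, Finset.sum_range]
    refine Finset.sum_congr rfl fun k _ => ?_
    rw [smul_eq_mul, haij, coeff_term]
  choose w hw using h2
  have h3 : (fun h : Fin (n + 1) => ∑ k : Fin (n + 1), ev (k : ℕ) • a h k) =
      (PowerSeries.X ^ ((n + 1) * N) : PowerSeries ℚ) • w := by
    funext h
    rw [hw h]
    rfl
  rw [h3, Matrix.det_updateCol_smul] at h1
  intro m hm
  have h4 := (PowerSeries.X_pow_dvd_iff (n := (n + 1) * N)
    (φ := (((mat n N).det : ℚ[X]) : PowerSeries ℚ))).1 ⟨_, h1.symm⟩ m hm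
  rwa [Polynomial.coeff_coe] at h4

lemma det_eq (hR : S_REM) (n N : ℕ) (hN : 1 ≤ N) :
    ∃ c : ℚ, c ≠ 0 ∧ (mat n N).det = C c * X ^ ((n + 1) * N) := by
  refine ⟨(mat n N).det.coeff ((n + 1) * N), coeff_det n N hN, ?_⟩
  ext m
  rw [coeff_C_mul_X_pow]
  rcases lt_trichotomy m ((n + 1) * N) with hm | hm | hm
  · rw [if_neg hm.ne, dvd_det hR n N hN m hm]
  · rw [if_pos hm, hm]
  · rw [if_neg hm.ne']
    exact coeff_eq_zero_of_natDegree_lt (lt_of_le_of_lt (natDegree_det n N hN) hm)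

theorem t4 : S_T4 := by
  intro hR n N hN z hz v hv
  obtain ⟨c, hc, hdet⟩ := det_eq hR n N hN
  by_contra hcon
  push Not at hcon
  obtain ⟨B, hB⟩ : ∃ B : Matrix (Fin (n + 1)) (Fin (n + 1)) ℂ,
    B = ((aeval z : ℚ[X] →ₐ[ℚ] ℂ) : ℚ[X] →+* ℂ).mapMatrix (mat n N) := ⟨_, rfl⟩
  have hBdet : B.det ≠ 0 := by
    rw [hB, ← RingHom.map_det, hdet]
    have e : ((aeval z : ℚ[X] →ₐ[ℚ] ℂ) : ℚ[X] →+* ℂ) (C c * X ^ ((n + 1) * N)) =
        (c : ℂ) * z ^ ((n + 1) * N) := by
      simp
    rw [e]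
    exact mul_ne_zero (by exact_mod_cast hc) (pow_ne_zero _ hz)
  have hBv : B.mulVec (fun k : Fin (n + 1) => v k) = 0 := by
    funext h
    have h1 := hcon (h : ℕ) (by have := h.isLt; omega)
    rw [Finset.sum_range] at h1
    rw [hB]
    exact h1
  have hv0 := Matrix.eq_zero_of_mulVec_eq_zero hBdet hBv
  obtain ⟨k, hk, hvk⟩ := hv
  exact hvk (congrFun hv0 ⟨k, by omega⟩)

end Pool.Agent.W177.TM
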